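import Pool.Agent.H55.GW.Targets1

/-!
# Module R1: removing a dominated vertex of class `P`
-/

set_option autoImplicit false

namespace Pool.Agent.H47.GW

open Pool.Agent.H55.GW

section Abstract

variable {W : Type} {D D' : W → W → Prop}

theorem leave {S T : Set W} {x y : W} (h : RIn D S x y) (hx : x ∈ T) (hy : y ∉ T) :
    ∃ u v, RIn D S x u ∧ u ∈ T ∧ D u v ∧ v ∉ T ∧ RIn D (S \ T) v y := by
  obtain ⟨u, v, h1, h2, h3, h4, h5⟩ := h.rev.enter hy hx
  exact ⟨v, u, h5.rev, h4, h3, h2, h1.rev⟩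

theorem self_reach {S : Set W} {x y : W} (h : RIn D S x y) : RIn D {w | RIn D S x w} x y := by
  obtain ⟨h1, h2⟩ := h
  induction h2 with
  | refl => exact RIn.refl (RIn.refl h1)
  | @tail b c h3 h4 ih => exact ih.tail h4.1 (RIn.tail ⟨h1, h3⟩ h4.1 h4.2)

theorem self_reach' {S : Set W} {x y : W} (h : RIn D S x y) : RIn D {w | RIn D S w y} x y := by
  have h1 := self_reach h.rev
  refine h1.rev.mono_set ?_
  intro w hw
  exact rIn_rev.1 hw

/-- the abstract situation: the vertices in `Rm` are removed and new arcs into `z` are added -/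
structure Short (D D' : W → W → Prop) (Rm : Set W) (z p0 : W) (pre : W → Prop)
    (Src Snk : Set W) : Prop where
  hD : ∀ x y, D' x y ↔ x ∉ Rm ∧ y ∉ Rm ∧ (D x y ∨ (y = z ∧ pre x ∧ ¬ D z x))
  into : ∀ x y, D x y → y ∈ Rm → x ∉ Rm → pre x
  toP : ∀ x, pre x → x ∉ Rm → RIn D (insert x Rm) x p0
  sep : ∀ r ∈ Rm, ∀ t ∈ Snk, ¬ RIn D {z}ᶜ r t
  hz : z ∉ Rm
  hzS : z ∉ Snk
  reach : ∃ t ∈ Snk, RIn D Set.univ p0 t
  hp : p0 ∈ Rm
  uniq : ∀ x w, pre x → D z x → D w x → w = z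
  hsrc : ∀ a ∈ Src, a ∉ Rm ∧ ∀ w, ¬ D w a

variable {Rm : Set W} {z p0 : W} {pre : W → Prop} {Src Snk : Set W}

theorem Short.tailWalk (h : Short D D' Rm z p0 pre Src Snk) {S : Set W} {v t : W}
    (ht : t ∈ Snk) (hw : RIn D (S \ {z}) v t) : RIn D' S v t := by
  obtain ⟨h1, h2⟩ := hw
  have hsub : S \ {z} ⊆ ({z} : Set W)ᶜ := fun w hw => hw.2
  induction h2 using Relation.ReflTransGen.head_induction_on with
  | refl => exact RIn.refl h1.1
  | @head a b h3 h4 ih =>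
    have ha : a ∉ Rm := fun ha => h.sep a ha t ht (RIn.mono_set ⟨h1, h4.head h3⟩ hsub)
    have hb : b ∉ Rm := fun hb => h.sep b hb t ht (RIn.mono_set ⟨h3.2, h4⟩ hsub)
    exact RIn.head ((h.hD a b).2 ⟨ha, hb, Or.inl h3.1⟩) h1.1 (ih h3.2)

theorem Short.fwd (h : Short D D' Rm z p0 pre Src Snk) {S : Set W} {a b : W}
    (ha : a ∈ Src) (hb : b ∈ Snk) (hw : RIn D S a b) : RIn D' S a b := by
  rcases hw.avoid_or {z} with h1 | ⟨z', hz', h1, h2⟩
  · exact h.tailWalk hb h1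
  · rw [Set.mem_singleton_iff] at hz'
    subst hz'
    have hzb : b ∉ ({z'} : Set W) := fun hc => h.hzS (by
      rw [Set.mem_singleton_iff] at hc
      exact hc ▸ hb)
    -- the part after the last visit of `z`
    have hpart2 : RIn D' S z' b := by
      obtain ⟨u, v, -, hu, huv, hv, hr⟩ := leave h2 (Set.mem_singleton z') hzb
      rw [Set.mem_singleton_iff] at hu
      subst hu
      have hvR : v ∉ Rm := fun hc => h.sep v hc b hb (hr.mono_set fun w hw => hw.2)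
      exact RIn.head ((h.hD u v).2 ⟨h.hz, hvR, Or.inl huv⟩) h2.left_mem (h.tailWalk hb hr)
    have hzS : z' ∈ S := h2.left_mem
    have hpart1 : RIn D' S a z' := by
      by_cases haz : a = z'
      · rw [haz]
        exact RIn.refl hzS
      · obtain ⟨u, v, h3, h4, h5, h6, -⟩ := h1.enter (T := {z'}) haz rfl
        rw [Set.mem_singleton_iff] at h6
        subst h6
        have h7 : RIn D (S \ {v}) a u := h3.mono_set (by
          rintro w ⟨hw1 | hw1, hw2⟩
          · exact hw1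
          · exact absurd hw1 hw2)
        rcases h7.avoid_or Rm with h8 | ⟨r, hr, h8, -⟩
        · have h9 : RIn D' S a u := h8.mono (fun x y hxy hx hy =>
            (h.hD x y).2 ⟨hx.2, hy.2, Or.inl hxy⟩) (fun w hw => hw.1.1)
          exact h9.tail ((h.hD u v).2 ⟨h8.right_mem.2, h.hz, Or.inl h5⟩) hzS
        · obtain ⟨u', v', h9, h10, h11, h12, -⟩ := h8.enter (h.hsrc a ha).1 hr
          have h13 : RIn D ((S \ {v}) \ Rm) a u' := h9.mono_set (by
            rintro w ⟨hw1 | hw1, hw2⟩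
            · exact hw1
            · rw [Set.mem_singleton_iff] at hw1
              exact absurd (hw1 ▸ hr) hw2)
          have hpre : pre u' := h.into u' v' h11 h12 h10
          have hno : ¬ D v u' := by
            intro hvu
            rcases h13.cases_tail with h14 | ⟨w, h14, h15⟩
            · exact (h.hsrc a ha).2 v (h14 ▸ hvu)
            · have := h.uniq u' w hpre hvu h15
              exact h14.right_mem.1.2 this
          have h9 : RIn D' S a u' := h13.mono (fun x y hxy hx hy =>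
            (h.hD x y).2 ⟨hx.2, hy.2, Or.inl hxy⟩) (fun w hw => hw.1.1)
          exact h9.tail ((h.hD u' v).2 ⟨h10, h.hz, Or.inr ⟨rfl, hpre, hno⟩⟩) hzS
    exact hpart1.trans hpart2

theorem Short.toZ (h : Short D D' Rm z p0 pre Src Snk) :
    RIn D (insert z {w | RIn D {z}ᶜ p0 w}) p0 z := by
  obtain ⟨t, ht, h1⟩ := h.reach
  have hpz : p0 ∉ ({z} : Set W) := fun hc => h.hz (by
    rw [Set.mem_singleton_iff] at hc
    exact hc ▸ h.hp)
  rcases h1.avoid_or {z} with h2 | ⟨z', hz', h2, -⟩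
  · exact absurd (h2.mono_set fun w hw => hw.2) (h.sep p0 h.hp t ht)
  · obtain ⟨u, v, h3, h4, h5, h6, -⟩ := h2.enter hpz hz'
    rw [Set.mem_singleton_iff] at h6
    subst h6
    have h7 : RIn D {v}ᶜ p0 u := h3.mono_set fun w hw => hw.2
    exact ((self_reach h7).mono_set fun w hw => Or.inr hw).tail h5 (Or.inl rfl)

theorem Short.bwd (h : Short D D' Rm z p0 pre Src Snk) {S : Set W} {a b : W} (hz : z ∈ S)
    (hw : RIn D' S a b) : RIn D (S ∪ Rm ∪ {w | RIn D {z}ᶜ p0 w}) a b := by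
  obtain ⟨h1, h2⟩ := hw
  induction h2 with
  | refl => exact RIn.refl (Or.inl (Or.inl h1))
  | @tail b c h3 h4 ih =>
    obtain ⟨h5, h6, h7 | ⟨h7, h8, h9⟩⟩ := (h.hD b c).1 h4.1
    · exact ih.tail h7 (Or.inl (Or.inl h4.2))
    · subst h7
      have hb : b ∈ S := RIn.right_mem (D := D') ⟨h1, h3⟩
      refine (ih.trans ((h.toP b h8 h5).mono_set ?_)).trans (h.toZ.mono_set ?_)
      · rintro w (hw | hw)
        · exact Or.inl (Or.inl (hw ▸ hb))
        · exact Or.inl (Or.inr hw)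
      · rintro w (hw | hw)
        · exact Or.inl (Or.inl (hw ▸ hz))
        · exact Or.inr hw

theorem Short.lnk (h : Short D D' Rm z p0 pre Src Snk) {X Y : Set W} (hX : X ⊆ Src)
    (hY : Y ⊆ Snk) (n : ℕ) : Lnk D n X Y ↔ Lnk D' n X Y := by
  classical
  constructor
  · rintro ⟨x, y, S, h1, h2⟩
    exact ⟨x, y, S, fun i => ⟨(h1 i).1, (h1 i).2.1, h.fwd (hX (h1 i).1) (hY (h1 i).2.1)
      (h1 i).2.2⟩, h2⟩
  · rintro ⟨x, y, S, h1, h2⟩
    have key : ∀ i, z ∉ S i → ∀ w, RIn D' (S i) w (y i) → RIn D {z}ᶜ w (y i) := by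
      intro i hi w hw
      refine hw.mono ?_ (fun v hv hvz => hi (by
        rw [Set.mem_singleton_iff] at hvz
        exact hvz ▸ hv))
      intro u v huv _ hv
      obtain ⟨-, -, h7 | ⟨h7, -, -⟩⟩ := (h.hD u v).1 huv
      · exact h7
      · exact absurd (h7 ▸ hv) hi
    refine ⟨x, y, fun i => if z ∈ S i then S i ∪ Rm ∪ {w | RIn D {z}ᶜ p0 w}
      else {w | RIn D' (S i) w (y i)}, fun i => ⟨(h1 i).1, (h1 i).2.1, ?_⟩, ?_⟩
    · by_cases hi : z ∈ S i
      · simp only [if_pos hi]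
        exact h.bwd hi (h1 i).2.2
      · simp only [if_neg hi]
        refine (self_reach' (h1 i).2.2).mono ?_ subset_rfl
        intro u v huv _ hv
        obtain ⟨-, -, h7 | ⟨h7, -, -⟩⟩ := (h.hD u v).1 huv
        · exact h7
        · exact absurd (h7 ▸ (RIn.left_mem hv)) hi
    · have hd : ∀ i j, z ∈ S i → z ∉ S j → i ≠ j →
          Disjoint (S i ∪ Rm ∪ {w | RIn D {z}ᶜ p0 w}) {w | RIn D' (S j) w (y j)} := by
        intro i j hi hj hij
        rw [Set.disjoint_left]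
        rintro w ((hw | hw) | hw) hw'
        · exact Set.disjoint_left.1 (h2 i j hij) hw (RIn.left_mem hw')
        · exact h.sep w hw _ (hY (h1 j).2.1) (key j hj w hw')
        · exact h.sep p0 h.hp _ (hY (h1 j).2.1) (RIn.trans hw (key j hj w hw'))
      intro i j hij
      by_cases hi : z ∈ S i
      · have hj : z ∉ S j := fun hj => Set.disjoint_left.1 (h2 i j hij) hi hj
        simp only [if_pos hi, if_neg hj]
        exact hd i j hi hj hij
      · by_cases hj : z ∈ S j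
        · simp only [if_neg hi, if_pos hj]
          exact (hd j i hj hi hij.symm).symm
        · simp only [if_neg hi, if_neg hj]
          exact (h2 i j hij).mono (fun w hw => RIn.left_mem hw) (fun w hw => RIn.left_mem hw)

end Abstract

/-! ## The smaller frame -/

/-- the internal vertices that stay -/
def Keep (m : ℕ → Vx) (p v : ℕ) : Prop := v ≠ p ∧ m p ≠ Sum.inr v

open Classical in
/-- the frame without `p` and its internal mate; whatever hangs at the mate is moved to `q0` -/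
noncomputable def shr (F : Frame) (m : ℕ → Vx) (p q0 : ℕ) (hV : q0 ∈ F.V) (hQ : ¬ F.isP q0)
    (hK : Keep m p q0) (hmp : ∀ e, m p = Sum.inl e → F.att e p) : Frame where
  V := F.V.filter (fun v => Keep m p v)
  E := F.E
  isP := F.isP
  adj := fun x y => (F.adj x y ∨ ∃ q, m p = Sum.inr q ∧ F.adj x q ∧ y = q0) ∧
    Keep m p x ∧ Keep m p y
  att := fun e v => (F.att e v ∨ ((m p = Sum.inl e ∨ ∃ q, m p = Sum.inr q ∧ F.att e q) ∧ v = q0)) ∧
    Keep m p v
  co := F.co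
  adj_wf := by
    rintro x y ⟨h1 | ⟨q, h1, h2, rfl⟩, h3, h4⟩
    · obtain ⟨h5, h6, h7, h8⟩ := F.adj_wf x y h1
      exact ⟨Finset.mem_filter.2 ⟨h5, h3⟩, Finset.mem_filter.2 ⟨h6, h4⟩, h7, h8⟩
    · obtain ⟨h5, h6, h7, h8⟩ := F.adj_wf x q h2
      exact ⟨Finset.mem_filter.2 ⟨h5, h3⟩, Finset.mem_filter.2 ⟨hV, h4⟩, h7, hQ⟩
  att_wf := by
    rintro e v ⟨h1 | ⟨h1 | ⟨q, h1, h2⟩, rfl⟩, h3⟩
    · exact ⟨(F.att_wf e v h1).1, Finset.mem_filter.2 ⟨(F.att_wf e v h1).2, h3⟩⟩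
    · exact ⟨(F.att_wf e p (hmp e h1)).1, Finset.mem_filter.2 ⟨hV, h3⟩⟩
    · exact ⟨(F.att_wf e q h2).1, Finset.mem_filter.2 ⟨hV, h3⟩⟩
  att_uniq := by
    have key : ∀ e v, F.att e v → Keep m p v →
        (m p = Sum.inl e ∨ ∃ q, m p = Sum.inr q ∧ F.att e q) → False := by
      rintro e v h1 h2 (h3 | ⟨q, h3, h4⟩)
      · exact h2.1 (F.att_uniq e v p h1 (hmp e h3))
      · exact h2.2 (by rw [h3, F.att_uniq e v q h1 h4])
    rintro e v w ⟨h1 | ⟨h1, h2⟩, h3⟩ ⟨h4 | ⟨h4, h5⟩, h6⟩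
    · exact F.att_uniq e v w h1 h4
    · exact (key e v h1 h3 h4).elim
    · exact (key e w h4 h6 h1).elim
    · rw [h2, h5]

section Concrete

variable {F : Frame} {m : ℕ → Vx} {p q0 : ℕ} {hV : q0 ∈ F.V} {hQ : ¬ F.isP q0}
  {hK : Keep m p q0} {hmp : ∀ e, m p = Sum.inl e → F.att e p}

/-- the removed vertices -/
def Rmv (m : ℕ → Vx) (p : ℕ) : Set Vx := {x | ∃ v, x = Sum.inr v ∧ ¬ Keep m p v}

/-- the vertices that precede `p` or its internal mate -/
def Pre (F : Frame) (m : ℕ → Vx) (p : ℕ) (x : Vx) : Prop :=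
  (∃ e, x = Sum.inl e ∧ m p = Sum.inl e) ∨ ∃ q, m p = Sum.inr q ∧ F.D m x (Sum.inr q)

theorem not_keep {v : ℕ} : ¬ Keep m p v ↔ v = p ∨ m p = Sum.inr v := by
  unfold Keep
  tauto

theorem inl_notMem {e : ℕ} : (Sum.inl e : Vx) ∉ Rmv m p := by
  rintro ⟨v, hv, -⟩
  simp at hv

theorem inr_mem {v : ℕ} : (Sum.inr v : Vx) ∈ Rmv m p ↔ ¬ Keep m p v := by
  constructor
  · rintro ⟨w, hw, h⟩
    rw [Sum.inr.injEq] at hw
    exact hw ▸ h
  · exact fun h => ⟨v, rfl, h⟩

theorem mem_shr_V {v : ℕ} : v ∈ (shr F m p q0 hV hQ hK hmp).V ↔ v ∈ F.V ∧ Keep m p v := by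
  classical
  exact Finset.mem_filter

theorem keep_mate (hm : F.IsPM m) (hpV : p ∈ F.V) {v u : ℕ} (hv : v ∈ F.V) (hk : Keep m p v)
    (hu : m v = Sum.inr u) : Keep m p u := by
  refine ⟨fun hc => ?_, fun hc => ?_⟩
  · subst hc
    exact hk.2 ((hm v hv).2 u hu).2
  · have h3 := ((hm p hpV).2 u hc).2
    rw [((hm v hv).2 u hu).2, Sum.inr.injEq] at h3
    exact hk.1 h3

theorem shr_isPM (hm : F.IsPM m) (hpV : p ∈ F.V) : (shr F m p q0 hV hQ hK hmp).IsPM m := by
  intro v hv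
  obtain ⟨h1, h2⟩ := mem_shr_V.1 hv
  refine ⟨fun e he => ⟨Or.inl ((hm v h1).1 e he), h2⟩, ?_⟩
  intro u hu
  obtain ⟨h3, h4⟩ := (hm v h1).2 u hu
  have hk : Keep m p u := keep_mate hm hpV h1 h2 hu
  refine ⟨?_, h4⟩
  rcases h3 with h3 | h3
  · exact Or.inl ⟨Or.inl h3, h2, hk⟩
  · exact Or.inr ⟨Or.inl h3, hk, h2⟩

/-- facts on the mate of `p` -/
theorem mate_facts (hm : F.IsPM m) (hpV : p ∈ F.V) (hP : F.isP p) {q : ℕ}
    (hq : m p = Sum.inr q) : q ∈ F.V ∧ ¬ F.isP q ∧ m q = Sum.inr p ∧ F.adj p q := by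
  obtain ⟨h1, h2⟩ := (hm p hpV).2 q hq
  rcases h1 with h1 | h1
  · exact ⟨Frame.adj_right h1, Frame.adj_notP h1, h2, h1⟩
  · exact absurd hP (Frame.adj_notP h1)

theorem shr_base (hm : F.IsPM m) (hpV : p ∈ F.V) (hP : F.isP p)
    (hat : ∀ e, F.att e p → m p = Sum.inl e) :
    (shr F m p q0 hV hQ hK hmp).base m = F.base m := by
  have hq0 : ∀ e, (m p = Sum.inl e ∨ ∃ q, m p = Sum.inr q ∧ F.att e q) →
      m q0 ≠ Sum.inl e ∧ e ∉ F.base m := by
    rintro e (h | ⟨q, h1, h2⟩)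
    · refine ⟨fun hc => ?_, fun hc => ?_⟩
      · have := F.att_uniq e p q0 (hmp e h) ((hm q0 hV).1 e hc)
        exact hK.1 this.symm
      · exact ((Frame.mem_base_iff (hmp e h)).1 hc).1 hP h
    · obtain ⟨h3, h4, h5, h6⟩ := mate_facts hm hpV hP h1
      refine ⟨fun hc => ?_, fun hc => ?_⟩
      · have := F.att_uniq e q q0 h2 ((hm q0 hV).1 e hc)
        exact hK.2 (this ▸ h1)
      · refine h4 (((Frame.mem_base_iff h2).1 hc).2 ?_)
        rw [h5]
        simp
  ext e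
  by_cases hE : e ∈ F.E
  · by_cases ha : ∃ v, F.att e v
    · obtain ⟨v, hv⟩ := ha
      by_cases hk : Keep m p v
      · have h1 : (shr F m p q0 hV hQ hK hmp).att e v := ⟨Or.inl hv, hk⟩
        rw [Frame.mem_base_iff h1, Frame.mem_base_iff hv]
        rfl
      · have h2 : m p = Sum.inl e ∨ ∃ q, m p = Sum.inr q ∧ F.att e q := by
          rcases not_keep.1 hk with h | h
          · exact Or.inl (hat e (h ▸ hv))
          · exact Or.inr ⟨v, h, hv⟩
        have h1 : (shr F m p q0 hV hQ hK hmp).att e q0 := ⟨Or.inr ⟨h2, rfl⟩, hK⟩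
        rw [Frame.mem_base_iff h1]
        obtain ⟨h3, h4⟩ := hq0 e h2
        constructor
        · intro h5
          exact absurd (h5.2 h3) hQ
        · exact fun h5 => absurd h5 h4
    · push Not at ha
      have h1 : ∀ v, ¬ (shr F m p q0 hV hQ hK hmp).att e v := by
        rintro v ⟨h2 | ⟨h2 | ⟨q, h2, h3⟩, -⟩, -⟩
        · exact ha v h2
        · exact ha p (hmp e h2)
        · exact ha q h3
      rw [Frame.mem_base_iff_of_free hE ha, Frame.mem_base_iff_of_free (by exact hE) h1]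
      rfl
  · exact ⟨fun h => absurd h.1 hE, fun h => absurd h.1 hE⟩

theorem shr_D (hm : F.IsPM m) (hpV : p ∈ F.V) (hP : F.isP p)
    (hat : ∀ e, F.att e p → m p = Sum.inl e) (x y : Vx) :
    (shr F m p q0 hV hQ hK hmp).D m x y ↔ x ∉ Rmv m p ∧ y ∉ Rmv m p ∧
      (F.D m x y ∨ (y = Sum.inr q0 ∧ Pre F m p x ∧ ¬ F.D m (Sum.inr q0) x)) := by
  have hb := shr_base (hV := hV) (hQ := hQ) (hK := hK) (hmp := hmp) hm hpV hP hat
  have hG : ∀ u v, (shr F m p q0 hV hQ hK hmp).adj u v ↔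
      (F.adj u v ∨ ∃ q, m p = Sum.inr q ∧ F.adj u q ∧ v = q0) ∧ Keep m p u ∧ Keep m p v :=
    fun _ _ => Iff.rfl
  have hA : ∀ e v, (shr F m p q0 hV hQ hK hmp).att e v ↔ (F.att e v ∨
      ((m p = Sum.inl e ∨ ∃ q, m p = Sum.inr q ∧ F.att e q) ∧ v = q0)) ∧ Keep m p v :=
    fun _ _ => Iff.rfl
  rcases x with e | u <;> rcases y with e' | v
  · simp only [Frame.D, false_or]
    constructor
    · exact fun h => h.elim
    · rintro ⟨-, -, h, -⟩
      simp at h
  · simp only [Frame.D]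
    rw [hA, hb, inr_mem, not_not]
    constructor
    · rintro ⟨⟨h1 | ⟨h1, h2⟩, h3⟩, h4⟩
      · exact ⟨inl_notMem, h3, Or.inl ⟨h1, h4⟩⟩
      · refine ⟨inl_notMem, h3, Or.inr ⟨by rw [h2], ?_, fun hc => h4 hc.2⟩⟩
        rcases h1 with h1 | ⟨q, h1, h5⟩
        · exact Or.inl ⟨e, rfl, h1⟩
        · exact Or.inr ⟨q, h1, h5, h4⟩
    · rintro ⟨-, h3, ⟨h1, h4⟩ | ⟨h1, h2, h4⟩⟩
      · exact ⟨⟨Or.inl h1, h3⟩, h4⟩
      · rw [Sum.inr.injEq] at h1
        subst h1
        rcases h2 with ⟨e1, h5, h6⟩ | ⟨q, h5, h6⟩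
        · rw [Sum.inl.injEq] at h5
          subst h5
          exact ⟨⟨Or.inr ⟨Or.inl h6, rfl⟩, h3⟩,
            fun hc => ((Frame.mem_base_iff (hmp e h6)).1 hc).1 hP h6⟩
        · exact ⟨⟨Or.inr ⟨Or.inr ⟨q, h5, h6.1⟩, rfl⟩, h3⟩, h6.2⟩
  · simp only [Frame.D]
    rw [hA, hb, inr_mem, not_not]
    constructor
    · rintro ⟨⟨h1 | ⟨h1, h2⟩, h3⟩, h4⟩
      · exact ⟨h3, inl_notMem, Or.inl ⟨h1, h4⟩⟩
      · exfalso
        rcases h1 with h1 | ⟨q, h1, h5⟩
        · exact ((Frame.mem_base_iff (hmp e' h1)).1 h4).1 hP h1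
        · obtain ⟨h6, h7, h8, h9⟩ := mate_facts hm hpV hP h1
          refine h7 (((Frame.mem_base_iff h5).1 h4).2 ?_)
          rw [h8]
          simp
    · rintro ⟨h3, -, ⟨h1, h4⟩ | ⟨h1, -, -⟩⟩
      · exact ⟨⟨Or.inl h1, h3⟩, h4⟩
      · simp at h1
  · simp only [Frame.D]
    rw [hG, hG, inr_mem, inr_mem, not_not, not_not]
    constructor
    · rintro (⟨⟨h1 | ⟨q, h1, h2, h3⟩, h4, h5⟩, h6⟩ | ⟨⟨h1 | ⟨q, h1, h2, h3⟩, h4, h5⟩, h6⟩)
      · exact ⟨h4, h5, Or.inl (Or.inl ⟨h1, h6⟩)⟩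
      · subst h3
        refine ⟨h4, h5, Or.inr ⟨rfl, Or.inr ⟨q, h1, Or.inl ⟨h2, fun hc => ?_⟩⟩, ?_⟩⟩
        · have h7 := ((hm u (Frame.adj_left h2)).2 q hc).2
          obtain ⟨-, -, h8, -⟩ := mate_facts hm hpV hP h1
          rw [h7, Sum.inr.injEq] at h8
          exact h4.1 h8
        · rintro (⟨h7, -⟩ | ⟨h7, h8⟩)
          · exact hQ (Frame.adj_isP h7)
          · exact h6 ((hm v hV).2 u h8).2
      · exact ⟨h5, h4, Or.inl (Or.inr ⟨h1, h6⟩)⟩
      · subst h3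
        obtain ⟨h7, h8⟩ := (hm u hV).2 v h6
        refine ⟨h5, h4, Or.inl (Or.inr ⟨?_, h6⟩)⟩
        rcases h7 with h7 | h7
        · exact absurd (Frame.adj_isP h7) hQ
        · exact h7
    · rintro ⟨h4, h5, (⟨h1, h6⟩ | ⟨h1, h6⟩) | ⟨h1, h2, h3⟩⟩
      · exact Or.inl ⟨⟨Or.inl h1, h4, h5⟩, h6⟩
      · exact Or.inr ⟨⟨Or.inl h1, h5, h4⟩, h6⟩
      · rw [Sum.inr.injEq] at h1
        subst h1
        rcases h2 with ⟨e1, h7, -⟩ | ⟨q, h7, h8 | h8⟩
        · simp at h7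
        · refine Or.inl ⟨⟨Or.inr ⟨q, h7, h8.1, rfl⟩, h4, h5⟩, fun hc => h3 (Or.inr ?_)⟩
          obtain ⟨h9, h10⟩ := (hm u (Frame.adj_left h8.1)).2 v hc
          refine ⟨?_, h10⟩
          rcases h9 with h9 | h9
          · exact h9
          · exact absurd (Frame.adj_isP h9) hQ
        · obtain ⟨-, h10, -, -⟩ := mate_facts hm hpV hP h7
          exact absurd (Frame.adj_isP h8.1) h10

end Concrete

/-- R1: a vertex of class `P` all of whose walks to the sinks pass through one vertex of class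
`Q` can be removed -/
theorem r1 (hREP : T_REP) : T_R1 := by
  intro M B R F m col hR p hpV hP hreach q0 hV hQ hsep
  have hm := hR.pm
  -- nothing hangs at `p` but its mate
  have hat : ∀ e, F.att e p → m p = Sum.inl e := by
    intro e he
    by_contra hne
    have hb : e ∈ F.base m := (Frame.mem_base_iff he).2 ⟨fun _ => hne, fun _ => hP⟩
    refine hsep (Sum.inr p) rfl (Sum.inl e) ⟨e, hb, rfl⟩ ?_
    refine RIn.single (show F.D m (Sum.inr p) (Sum.inl e) from ⟨he, hb⟩) ?_ (by simp)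
    simp only [Set.mem_compl_iff, Set.mem_singleton_iff, Sum.inr.injEq]
    exact fun hc => hQ (hc ▸ hP)
  have hmp : ∀ e, m p = Sum.inl e → F.att e p := (hm p hpV).1
  -- `q0` is not the mate of `p`
  have hK : Keep m p q0 := by
    refine ⟨fun hc => hQ (hc ▸ hP), fun hc => ?_⟩
    obtain ⟨-, -, h1, -⟩ := mate_facts hm hpV hP hc
    obtain ⟨t, ht, hw⟩ := hreach
    have htz : t ∉ ({Sum.inr q0} : Set Vx) := by
      obtain ⟨e, -, rfl⟩ := ht
      simp
    rcases hw.avoid_or {Sum.inr q0} with h2 | ⟨z, hz, -, h2⟩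
    · exact hsep _ rfl t ht (h2.mono_set fun w hw => hw.2)
    · obtain ⟨u, v, -, hu, huv, hv, hr⟩ := leave h2 hz htz
      rw [Set.mem_singleton_iff] at hu
      subst hu
      have h3 := Frame.out_Q hm hQ huv
      rw [h1] at h3
      subst h3
      exact hsep _ rfl t ht (hr.mono_set fun w hw => hw.2)
  have hsnk : ∀ t ∈ F.snk m, ∃ e ∈ F.base m, t = Sum.inl e := fun t ht => ht
  have hS : Short (F.D m) ((shr F m p q0 hV hQ hK hmp).D m) (Rmv m p) (Sum.inr q0) (Sum.inr p)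
      (Pre F m p) (F.src m) (F.snk m) := by
    refine ⟨shr_D hm hpV hP hat, ?_, ?_, ?_, ?_, ?_, hreach, ?_, ?_, ?_⟩
    · rintro x y hxy ⟨v, rfl, hv⟩ hx
      rcases not_keep.1 hv with h | h
      · subst h
        have h1 := Frame.in_P hm hP hxy
        rcases hmv : m v with e | q
        · rw [hmv] at h1
          exact Or.inl ⟨e, h1, hmv⟩
        · rw [hmv] at h1
          exact absurd ⟨q, h1, not_keep.2 (Or.inr hmv)⟩ hx
      · exact Or.inr ⟨v, h, hxy⟩
    · rintro x hx hxR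
      rcases hx with ⟨e, rfl, h1⟩ | ⟨q, h1, h2⟩
      · have h2 := Frame.D_mate_P hm hpV hP
        rw [h1] at h2
        exact RIn.single h2 (Or.inl rfl) (Or.inr (inr_mem.2 (not_keep.2 (Or.inl rfl))))
      · have h3 := Frame.D_mate_P hm hpV hP
        rw [h1] at h3
        exact (RIn.single h2 (Or.inl rfl) (Or.inr (inr_mem.2 (not_keep.2 (Or.inr h1))))).tail h3
          (Or.inr (inr_mem.2 (not_keep.2 (Or.inl rfl))))
    · rintro r ⟨v, rfl, hv⟩ t ht hw
      rcases not_keep.1 hv with h | h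
      · subst h
        exact hsep _ rfl t ht hw
      · obtain ⟨-, h1, h2, -⟩ := mate_facts hm hpV hP h
        rcases hw.cases_head with h3 | ⟨w, h3, -, h4⟩
        · obtain ⟨e, -, rfl⟩ := ht
          simp at h3
        · have h5 := Frame.out_Q hm h1 h3
          rw [h2] at h5
          subst h5
          exact hsep _ rfl t ht h4
    · exact fun h => inr_mem.1 h hK
    · rintro ⟨e, -, he⟩
      simp at he
    · exact inr_mem.2 (not_keep.2 (Or.inl rfl))
    · rintro x w hx hzx hwx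
      rcases hx with ⟨e, rfl, h1⟩ | ⟨q, h1, h2⟩
      · exact absurd hzx (Frame.no_in_src
          (fun hc => ((Frame.mem_base_iff (hmp e h1)).1 hc).1 hP h1) _)
      · obtain ⟨h3, h4, h5, h6⟩ := mate_facts hm hpV hP h1
        rcases x with e | u
        · exact absurd hzx (Frame.no_in_src h2.2 _)
        · have hu : F.isP u := by
            rcases h2 with h2 | h2
            · exact Frame.adj_isP h2.1
            · exact absurd (Frame.adj_isP h2.1) h4
          rw [Frame.in_P hm hu hwx, Frame.in_P hm hu hzx]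
    · rintro a ⟨e, -, he, rfl⟩
      exact ⟨inl_notMem, Frame.no_in_src he⟩
  refine ⟨shr F m p q0 hV hQ hK hmp, m, col, ⟨?_, shr_isPM hm hpV, ?_, hR.disj, ?_⟩, ?_⟩
  · refine hREP F _ m m M hR.rep hm (shr_isPM hm hpV) rfl (shr_base hm hpV hP hat) ?_
    intro n X Y hX hY _ _
    refine hS.lnk ?_ ?_ n
    · rintro _ ⟨e, he, rfl⟩
      exact ⟨e, (hX he).1, (hX he).2, rfl⟩
    · rintro _ ⟨e, he, rfl⟩
      exact ⟨e, hY he, rfl⟩
  · rw [shr_base hm hpV hP hat]
    exact hR.base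
  · intro c s t hst
    have h1 := hR.hold c s t hst
    by_cases hne : s = t
    · subst hne
      exact RIn.refl (Or.inl (Or.inl rfl))
    · have hs : (Sum.inl s : Vx) ∈ F.src m := by
        rcases h1.cases_head with h2 | ⟨w, h2, -, -⟩
        · rw [Sum.inl.injEq] at h2
          exact absurd h2 hne
        · obtain ⟨h3, -⟩ := Frame.D_uni h2
          rcases w with e | v
          · exact absurd h2 (by simp [Frame.D])
          · exact ⟨s, Frame.att_E h2.1, h2.2, rfl⟩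
      have ht : (Sum.inl t : Vx) ∈ F.snk m := by
        rcases h1.cases_tail with h2 | ⟨w, -, h2⟩
        · rw [Sum.inl.injEq] at h2
          exact absurd h2 hne
        · rcases w with e | v
          · exact absurd h2 (by simp [Frame.D])
          · exact ⟨t, h2.2, rfl⟩
      exact hS.fwd hs ht h1
  · refine Finset.card_lt_card ⟨fun v hv => (mem_shr_V.1 hv).1, fun h => ?_⟩
    exact (mem_shr_V.1 (h hpV)).2.1 rfl

end Pool.Agent.H47.GW
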